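import Mathlib

set_option autoImplicit false

noncomputable section

namespace Pool.Agent.LibRabi30

open Filter Topology

/-- The solution of the recurrence of the Jacobi matrix with parameters `g = 5`,
`Δ = 237/10`, parity `-`, energy `e`, with value `1` at `0`. -/
def U (e : ℝ) : ℕ → ℝ
  | 0 => 1
  | 1 => (e + 237 / 10) / 5
  | (k + 2) => ((e - (((k : ℝ) + 1) - (-1) ^ (k + 1) * (237 / 10))) * U e (k + 1) -
      5 * Real.sqrt ((k : ℝ) + 1) * U e k) / (5 * Real.sqrt ((k : ℝ) + 2))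

theorem U_cont : ∀ k : ℕ, Continuous (fun e : ℝ => U e k) ∧ Continuous (fun e : ℝ => U e (k + 1))
  | 0 => by
    refine ⟨continuous_const, ?_⟩
    show Continuous (fun e : ℝ => (e + 237 / 10) / 5)
    fun_prop
  | (k + 1) => by
    obtain ⟨h1, h2⟩ := U_cont k
    refine ⟨h2, ?_⟩
    show Continuous (fun e : ℝ => ((e - (((k : ℝ) + 1) - (-1) ^ (k + 1) * (237 / 10))) * U e (k + 1) -
      5 * Real.sqrt ((k : ℝ) + 1) * U e k) / (5 * Real.sqrt ((k : ℝ) + 2)))
    fun_prop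

/-- the recurrence, for `k ≥ 1` -/
theorem U_rec (e : ℝ) (k : ℕ) (hk : 1 ≤ k) :
    5 * Real.sqrt ((k : ℝ) + 1) * U e (k + 1) =
      (e - ((k : ℝ) - (-1) ^ k * (237 / 10))) * U e k - 5 * Real.sqrt (k : ℝ) * U e (k - 1) := by
  obtain ⟨m, rfl⟩ : ∃ m, k = m + 1 := ⟨k - 1, by omega⟩
  have h0 : (0 : ℝ) < Real.sqrt ((m : ℝ) + 2) := Real.sqrt_pos.2 (by positivity)
  have e1 : ((m + 1 : ℕ) : ℝ) + 1 = (m : ℝ) + 2 := by push_cast; ring
  rw [e1]
  show 5 * Real.sqrt ((m : ℝ) + 2) *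
    (((e - (((m : ℝ) + 1) - (-1) ^ (m + 1) * (237 / 10))) * U e (m + 1) -
      5 * Real.sqrt ((m : ℝ) + 1) * U e m) / (5 * Real.sqrt ((m : ℝ) + 2))) = _
  rw [mul_div_cancel₀ _ (by positivity)]
  push_cast
  rfl

/-- the equation of the frozen statement -/
theorem U_eq (e : ℝ) (k : ℕ) :
    ((k : ℝ) + (-1) * (-1 : ℝ) ^ k * (237 / 10)) * U e k
      + 5 * (Real.sqrt (k : ℝ) * U e (k - 1) + Real.sqrt ((k : ℝ) + 1) * U e (k + 1)) =
      e * U e k := by
  rcases Nat.eq_zero_or_pos k with rfl | hk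
  · have h1 : U e 1 = (e + 237 / 10) / 5 := rfl
    have h0 : U e 0 = 1 := rfl
    norm_num [h1, h0]
    ring
  · have h := U_rec e k hk
    linear_combination h

/-- in the range `k ≥ 104` the matrix is diagonally dominant -/
theorem dom {e : ℝ} (he : e ≤ -23) {k : ℕ} (hk : 104 ≤ k) :
    5 * Real.sqrt ((k : ℝ) + 1) + 5 * Real.sqrt (k : ℝ) ≤
      ((k : ℝ) - (-1) ^ k * (237 / 10)) - e := by
  have hk' : (104 : ℝ) ≤ k := by exact_mod_cast hk
  have h1 : Real.sqrt (k : ℝ) ≤ Real.sqrt ((k : ℝ) + 1) := Real.sqrt_le_sqrt (by linarith)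
  have h2 : (-1 : ℝ) ^ k ≤ 1 := by
    rcases neg_one_pow_eq_or ℝ k with h | h <;> rw [h] <;> norm_num
  have h3 : 10 * Real.sqrt ((k : ℝ) + 1) ≤ (k : ℝ) - 7 / 10 := by
    have h4 : Real.sqrt ((k : ℝ) + 1) ≤ ((k : ℝ) - 7 / 10) / 10 := by
      rw [Real.sqrt_le_left (by linarith)]
      nlinarith
    linarith
  linarith

/-- growing solutions keep growing, with alternating signs -/
theorem grow {e : ℝ} (he : e ≤ -23) {k : ℕ} (hk : 104 ≤ k) {σ : ℝ} (hσ : σ = 1 ∨ σ = -1)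
    (h1 : |U e (k - 1)| < |U e k|) (h2 : 0 < σ * U e k) :
    |U e k| < |U e (k + 1)| ∧ 0 < -σ * U e (k + 1) := by
  have hd := dom he hk
  have hr := U_rec e k (by omega)
  have hk' : (104 : ℝ) ≤ k := by exact_mod_cast hk
  have hs1 : 0 < Real.sqrt ((k : ℝ) + 1) := Real.sqrt_pos.2 (by linarith)
  have hs0 : 0 < Real.sqrt (k : ℝ) := Real.sqrt_pos.2 (by linarith)
  set A : ℝ := ((k : ℝ) - (-1) ^ k * (237 / 10)) - e with hA
  set x := U e (k - 1) with hx
  set y := U e k with hy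
  set z := U e (k + 1) with hz
  have hr' : 5 * Real.sqrt ((k : ℝ) + 1) * z = -(A * y) - 5 * Real.sqrt (k : ℝ) * x := by
    rw [hr, hA]
    ring
  have hx1 : |x| < |y| := h1
  have hxl := (abs_lt.1 hx1).1
  have hxr := (abs_lt.1 hx1).2
  rcases hσ with rfl | rfl
  · have hy0 : 0 < y := by linarith
    rw [abs_of_pos hy0] at hxl hxr ⊢
    have h5 : 5 * Real.sqrt ((k : ℝ) + 1) * y < 5 * Real.sqrt ((k : ℝ) + 1) * (-z) := by
      nlinarith [mul_pos hs0 (by linarith : 0 < y + x), mul_le_mul_of_nonneg_right hd hy0.le]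
    have h6 : y < -z := lt_of_mul_lt_mul_left h5 (by positivity)
    refine ⟨?_, by linarith⟩
    rw [abs_of_neg (by linarith)]
    exact h6
  · have hy0 : y < 0 := by linarith
    rw [abs_of_neg hy0] at hxl hxr ⊢
    have h5 : 5 * Real.sqrt ((k : ℝ) + 1) * (-y) < 5 * Real.sqrt ((k : ℝ) + 1) * z := by
      nlinarith [mul_pos hs0 (by linarith : 0 < -y - x),
        mul_le_mul_of_nonneg_right hd (by linarith : 0 ≤ -y)]
    have h6 : -y < z := lt_of_mul_lt_mul_left h5 (by positivity)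
    refine ⟨?_, by linarith⟩
    rw [abs_of_pos (by linarith)]
    exact h6

/-- the solution grows at `k`, with sign `σ (-1)^k` -/
def Gr (e σ : ℝ) (k : ℕ) : Prop := |U e (k - 1)| < |U e k| ∧ 0 < σ * (-1) ^ k * U e k

theorem Gr_step {e : ℝ} (he : e ≤ -23) {k : ℕ} (hk : 104 ≤ k) {σ : ℝ} (hσ : σ = 1 ∨ σ = -1)
    (h : Gr e σ k) : Gr e σ (k + 1) := by
  have hσ' : σ * (-1) ^ k = 1 ∨ σ * (-1) ^ k = -1 := by
    rcases neg_one_pow_eq_or ℝ k with h | h
    · rw [h]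
      rcases hσ with rfl | rfl <;> norm_num
    · rw [h]
      rcases hσ with rfl | rfl <;> norm_num
  obtain ⟨h1, h2⟩ := grow he hk hσ' h.1 h.2
  refine ⟨h1, ?_⟩
  rw [pow_succ]
  linarith

theorem Gr_le {e : ℝ} (he : e ≤ -23) {k : ℕ} (hk : 104 ≤ k) {σ : ℝ} (hσ : σ = 1 ∨ σ = -1)
    (h : Gr e σ k) {m : ℕ} (hm : k ≤ m) : Gr e σ m := by
  induction m, hm using Nat.le_induction with
  | base => exact h
  | succ m hm ih => exact Gr_step he (hk.trans hm) hσ ih

/-- a solution that never grows is square summable -/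
theorem decay {e : ℝ} (he : e ≤ -23) (h : ∀ k, 104 ≤ k → ¬ |U e (k - 1)| < |U e k|) :
    Summable (fun k => U e k ^ 2) := by
  refine summable_of_ratio_norm_eventually_le (r := 1 / 4) (by norm_num) ?_
  filter_upwards [eventually_ge_atTop 1000] with n hn
  have hk : 104 ≤ n + 1 := by omega
  have hd := dom he hk
  have hr := U_rec e (n + 1) (by omega)
  have h1 : |U e (n + 1 + 1)| ≤ |U e (n + 1)| := by
    have := h (n + 1 + 1) (by omega)
    rw [Nat.add_sub_cancel] at this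
    exact not_lt.1 this
  rw [Nat.add_sub_cancel] at hr
  have hn' : (1000 : ℝ) ≤ n := by exact_mod_cast hn
  have e1 : ((n + 1 : ℕ) : ℝ) = (n : ℝ) + 1 := by push_cast; ring
  rw [e1] at hr hd
  set A : ℝ := ((n : ℝ) + 1 - (-1) ^ (n + 1) * (237 / 10)) - e with hA
  set s := Real.sqrt ((n : ℝ) + 1 + 1) with hs
  set t := Real.sqrt ((n : ℝ) + 1) with ht
  have hs0 : 0 ≤ s := Real.sqrt_nonneg _
  have ht0 : 0 ≤ t := Real.sqrt_nonneg _
  have hts : t ≤ s := Real.sqrt_le_sqrt (by linarith)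
  have hA1 : 15 * s ≤ A := by
    have h2 : (-1 : ℝ) ^ (n + 1) ≤ 1 := by
      rcases neg_one_pow_eq_or ℝ (n + 1) with h | h <;> rw [h] <;> norm_num
    have h3 : s ≤ ((n : ℝ)) / 15 := by
      rw [hs, Real.sqrt_le_left (by positivity)]
      nlinarith
    rw [hA]
    linarith
  -- |A y| <= 5 t |x| + 5 s |z|
  have h4 : A * |U e (n + 1)| ≤ 5 * t * |U e n| + 5 * s * |U e (n + 1 + 1)| := by
    have h5 : A * U e (n + 1) = -(5 * s * U e (n + 1 + 1)) - 5 * t * U e n := by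
      rw [hr, hA]
      ring
    have hA0 : 0 ≤ A := by linarith
    calc A * |U e (n + 1)| = |A * U e (n + 1)| := by rw [abs_mul, abs_of_nonneg hA0]
      _ = |-(5 * s * U e (n + 1 + 1)) - 5 * t * U e n| := by rw [h5]
      _ ≤ |-(5 * s * U e (n + 1 + 1))| + |5 * t * U e n| := abs_sub _ _
      _ = 5 * t * |U e n| + 5 * s * |U e (n + 1 + 1)| := by
        rw [abs_neg, abs_mul (5 * s), abs_mul (5 * t), abs_of_nonneg (by positivity : 0 ≤ 5 * s),
          abs_of_nonneg (by positivity : 0 ≤ 5 * t)]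
        ring
  have h6 : 10 * s * |U e (n + 1)| ≤ 5 * s * |U e n| := by
    have h7 : 5 * s * |U e (n + 1 + 1)| ≤ 5 * s * |U e (n + 1)| :=
      mul_le_mul_of_nonneg_left h1 (by positivity)
    have h8 : 15 * s * |U e (n + 1)| ≤ A * |U e (n + 1)| :=
      mul_le_mul_of_nonneg_right hA1 (abs_nonneg _)
    have h9 : 5 * t * |U e n| ≤ 5 * s * |U e n| :=
      mul_le_mul_of_nonneg_right (by linarith) (abs_nonneg _)
    linarith
  have hs1 : 0 < s := Real.sqrt_pos.2 (by linarith)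
  have h10 : |U e (n + 1)| ≤ |U e n| / 2 := by
    have h11 : s * (2 * |U e (n + 1)|) ≤ s * |U e n| := by linarith
    have := le_of_mul_le_mul_left h11 hs1
    linarith
  rw [Real.norm_of_nonneg (sq_nonneg _), Real.norm_of_nonneg (sq_nonneg _), ← sq_abs (U e (n + 1)),
    ← sq_abs (U e n)]
  nlinarith [abs_nonneg (U e (n + 1)), abs_nonneg (U e n)]

theorem Gr_open (σ : ℝ) (k : ℕ) : IsOpen {e : ℝ | Gr e σ k} := by
  have h1 : Continuous (fun e : ℝ => U e (k - 1)) := (U_cont (k - 1)).1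
  have h2 : Continuous (fun e : ℝ => U e k) := (U_cont k).1
  exact (isOpen_lt h1.abs h2.abs).inter (isOpen_lt continuous_const (h2.const_mul _))

/-- between two energies with growing solutions of opposite signs there is an eigenvalue -/
theorem exists_eig {a b σ : ℝ} (hab : a ≤ b) (hb : b ≤ -23) (hσ : σ = 1 ∨ σ = -1)
    {K : ℕ} (hK : 104 ≤ K) (ha : Gr a σ K) (hb' : Gr b (-σ) K) :
    ∃ e, a < e ∧ e < b ∧ Summable (fun k => U e k ^ 2) := by
  have hσ' : -σ = 1 ∨ -σ = -1 := by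
    rcases hσ with rfl | rfl
    · right; rfl
    · left; norm_num
  let A : ℝ → Set ℝ := fun τ => ⋃ k : ℕ, {e : ℝ | Gr e τ (k + 104)}
  have hopen : ∀ τ, IsOpen (A τ) := fun τ => isOpen_iUnion fun k => Gr_open τ _
  have hmem : ∀ {e τ : ℝ} {k : ℕ}, 104 ≤ k → Gr e τ k → e ∈ A τ := by
    intro e τ k hk h
    refine Set.mem_iUnion.2 ⟨k - 104, ?_⟩
    show Gr e τ (k - 104 + 104)
    rwa [Nat.sub_add_cancel hk]
  have hdisj : ∀ e, e ≤ -23 → e ∈ A σ → e ∈ A (-σ) → False := by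
    intro e he h1 h2
    obtain ⟨k1, h1⟩ := Set.mem_iUnion.1 h1
    obtain ⟨k2, h2⟩ := Set.mem_iUnion.1 h2
    have h1' : Gr e σ (k1 + 104) := h1
    have h2' : Gr e (-σ) (k2 + 104) := h2
    have h3 := Gr_le he (by omega) hσ h1' (le_max_left (k1 + 104) (k2 + 104))
    have h4 := Gr_le he (by omega) hσ' h2' (le_max_right (k1 + 104) (k2 + 104))
    have h5 := h3.2
    have h6 := h4.2
    rw [neg_mul, neg_mul] at h6
    linarith
  have hex : ∃ e ∈ Set.Icc a b, e ∉ A σ ∪ A (-σ) := by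
    by_contra hcon
    push Not at hcon
    have hsub : Set.Icc a b ⊆ A σ ∪ A (-σ) := fun e he => hcon e he
    have hpre : IsPreconnected (Set.Icc a b) := isPreconnected_Icc
    obtain ⟨e, he, he1, he2⟩ := hpre (A σ) (A (-σ)) (hopen _) (hopen _) hsub
      ⟨a, Set.left_mem_Icc.2 hab, hmem hK ha⟩ ⟨b, Set.right_mem_Icc.2 hab, hmem hK hb'⟩
    exact hdisj e (he.2.trans hb) he1 he2
  obtain ⟨e, he, hne⟩ := hex
  have hea : e ≠ a := by
    rintro rfl
    exact hne (Or.inl (hmem hK ha))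
  have heb : e ≠ b := by
    rintro rfl
    exact hne (Or.inr (hmem hK hb'))
  refine ⟨e, lt_of_le_of_ne he.1 (Ne.symm hea), lt_of_le_of_ne he.2 heb, ?_⟩
  refine decay (he.2.trans hb) ?_
  intro k hk hlt
  have hU : U e k ≠ 0 := by
    intro h0
    rw [h0, abs_zero] at hlt
    exact absurd hlt (not_lt.2 (abs_nonneg _))
  apply hne
  have hsq : ((-1 : ℝ) ^ k) * (-1) ^ k = 1 := by
    rw [← mul_pow]
    norm_num
  rcases lt_or_gt_of_ne (mul_ne_zero (pow_ne_zero k (by norm_num : (-1 : ℝ) ≠ 0)) hU) with h | h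
  · -- (-1)^k U < 0
    rcases hσ with rfl | rfl
    · right
      refine hmem hk ⟨hlt, ?_⟩
      linarith
    · left
      refine hmem hk ⟨hlt, ?_⟩
      linarith
  · rcases hσ with rfl | rfl
    · left
      refine hmem hk ⟨hlt, ?_⟩
      linarith
    · right
      refine hmem hk ⟨hlt, ?_⟩
      linarith

/-! ## the integer recursion -/

/-- the pair `(W_k, W_(k+1))` for `2 x = i` -/
def W (i : ℤ) : ℕ → ℤ × ℤ
  | 0 => (1, 5 * i - 250 + 237)
  | (k + 1) => ((W i k).2, (5 * i - 250 - 10 * ((k : ℤ) + 1) + (-1) ^ (k + 1) * 237) * (W i k).2 -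
      2500 * ((k : ℤ) + 1) * (W i k).1)

theorem W_U (i : ℤ) : ∀ k : ℕ,
    ((W i k).1 : ℝ) = 50 ^ k * Real.sqrt (k.factorial : ℝ) * U ((i : ℝ) / 2 - 25) k ∧
    ((W i k).2 : ℝ) = 50 ^ (k + 1) * Real.sqrt ((k + 1).factorial : ℝ) *
      U ((i : ℝ) / 2 - 25) (k + 1)
  | 0 => by
    refine ⟨?_, ?_⟩
    · show (((1 : ℤ)) : ℝ) = 50 ^ 0 * Real.sqrt ((0 : ℕ).factorial : ℝ) * 1
      simp
    · show (((5 * i - 250 + 237 : ℤ)) : ℝ) = 50 ^ (0 + 1) * Real.sqrt (((0 + 1 : ℕ)).factorial : ℝ) *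
        (((i : ℝ) / 2 - 25 + 237 / 10) / 5)
      simp
      ring
  | (k + 1) => by
    obtain ⟨h1, h2⟩ := W_U i k
    refine ⟨h2, ?_⟩
    have hr := U_rec ((i : ℝ) / 2 - 25) (k + 1) (by omega)
    rw [Nat.add_sub_cancel] at hr
    have hf1 : Real.sqrt ((k + 1).factorial : ℝ) =
        Real.sqrt ((k : ℝ) + 1) * Real.sqrt (k.factorial : ℝ) := by
      rw [Nat.factorial_succ]
      push_cast
      rw [Real.sqrt_mul (by positivity)]
    have hf2 : Real.sqrt ((k + 1 + 1).factorial : ℝ) =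
        Real.sqrt ((k : ℝ) + 1 + 1) * (Real.sqrt ((k : ℝ) + 1) * Real.sqrt (k.factorial : ℝ)) := by
      rw [Nat.factorial_succ, ← hf1]
      push_cast
      rw [Real.sqrt_mul (by positivity)]
    have hsq : Real.sqrt ((k : ℝ) + 1) * Real.sqrt ((k : ℝ) + 1) = (k : ℝ) + 1 :=
      Real.mul_self_sqrt (by positivity)
    show (((5 * i - 250 - 10 * ((k : ℤ) + 1) + (-1) ^ (k + 1) * 237) * (W i k).2 -
      2500 * ((k : ℤ) + 1) * (W i k).1 : ℤ) : ℝ) = _
    push_cast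
    rw [h1, h2, hf2, hf1]
    push_cast at hr
    set x := U ((i : ℝ) / 2 - 25) k
    set y := U ((i : ℝ) / 2 - 25) (k + 1)
    set z := U ((i : ℝ) / 2 - 25) (k + 1 + 1)
    set s := Real.sqrt ((k : ℝ) + 1 + 1)
    set t := Real.sqrt ((k : ℝ) + 1)
    set f := Real.sqrt (k.factorial : ℝ)
    have e1 : (50 : ℝ) ^ (k + 1 + 1) * (s * (t * f)) * z =
        10 * 50 ^ (k + 1) * t * f * (5 * s * z) := by ring
    rw [e1, hr]
    have e2 : (2500 : ℝ) * ((k : ℝ) + 1) * (50 ^ k * f * x) =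
        2500 * (t * t) * (50 ^ k * f * x) := by rw [hsq]
    rw [e2]
    ring

/-- the numerical check at `k = 110` -/
def chk (i : ℤ) (σ : ℤ) : Bool :=
  decide (0 < σ * (W i 109).2) && decide (2500 * 110 * (W i 109).1 ^ 2 < (W i 109).2 ^ 2)

theorem Gr_of_chk {i σ : ℤ} (h : chk i σ = true) : Gr ((i : ℝ) / 2 - 25) (σ : ℝ) 110 := by
  unfold chk at h
  rw [Bool.and_eq_true, decide_eq_true_eq, decide_eq_true_eq] at h
  obtain ⟨h1, h2⟩ := h
  obtain ⟨h3, h4⟩ := W_U i 109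
  set x := U ((i : ℝ) / 2 - 25) 109 with hx
  set y := U ((i : ℝ) / 2 - 25) (109 + 1) with hy
  have hf : Real.sqrt ((109 + 1).factorial : ℝ) =
        Real.sqrt 110 * Real.sqrt ((109).factorial : ℝ) := by
    rw [Nat.factorial_succ]
    push_cast
    rw [Real.sqrt_mul (by norm_num)]
  set f := Real.sqrt ((109).factorial : ℝ) with hf'
  have hf0 : 0 < f := Real.sqrt_pos.2 (by exact_mod_cast Nat.factorial_pos 109)
  have h110 : Real.sqrt 110 * Real.sqrt 110 = 110 := Real.mul_self_sqrt (by norm_num)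
  have h110' : 0 < Real.sqrt 110 := Real.sqrt_pos.2 (by norm_num)
  rw [hf] at h4
  have h1' : (0 : ℝ) < (σ : ℝ) * ((W i 109).2 : ℝ) := by exact_mod_cast h1
  have h2' : (2500 : ℝ) * 110 * ((W i 109).1 : ℝ) ^ 2 < ((W i 109).2 : ℝ) ^ 2 := by
    exact_mod_cast h2
  rw [h3, h4] at h2'
  rw [h4] at h1'
  refine ⟨?_, ?_⟩
  · show |x| < |y|
    rw [← sq_lt_sq]
    have e1 : (2500 : ℝ) * 110 * (50 ^ 109 * f * x) ^ 2 =
        (2500 * 110 * (50 ^ 109) ^ 2 * f ^ 2) * x ^ 2 := by ring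
    have e2 : ((50 : ℝ) ^ (109 + 1) * (Real.sqrt 110 * f) * y) ^ 2 =
        (2500 * (Real.sqrt 110 * Real.sqrt 110) * (50 ^ 109) ^ 2 * f ^ 2) * y ^ 2 := by ring
    rw [e1, e2, h110] at h2'
    exact lt_of_mul_lt_mul_left h2' (by positivity)
  · show 0 < (σ : ℝ) * (-1) ^ 110 * y
    have e3 : (σ : ℝ) * (50 ^ (109 + 1) * (Real.sqrt 110 * f) * y) =
        (50 ^ (109 + 1) * (Real.sqrt 110 * f)) * ((σ : ℝ) * (-1) ^ 110 * y) := by
      rw [show ((-1 : ℝ)) ^ 110 = 1 by norm_num]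
      ring
    rw [e3] at h1'
    have hpos : (0 : ℝ) < 50 ^ (109 + 1) * (Real.sqrt 110 * f) := by positivity
    exact (mul_pos_iff_of_pos_left hpos).1 h1'

theorem chk0 : chk 0 (-1) = true := by decide +kernel
theorem chk1 : chk 1 1 = true := by decide +kernel
theorem chk2 : chk 2 (-1) = true := by decide +kernel
theorem chk3 : chk 3 1 = true := by decide +kernel
theorem chk4 : chk 4 (-1) = true := by decide +kernel

theorem Gr_neg {i : ℤ} (h : chk i (-1) = true) : Gr ((i : ℝ) / 2 - 25) (-1) 110 := by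
  have := Gr_of_chk h
  push_cast at this
  exact this

theorem Gr_pos {i : ℤ} (h : chk i 1 = true) : Gr ((i : ℝ) / 2 - 25) 1 110 := by
  have := Gr_of_chk h
  push_cast at this
  exact this

/-- four eigenvalues -/
theorem four : ∀ i : ℕ, i < 4 → ∃ e : ℝ, (i : ℝ) / 2 - 25 < e ∧ e < ((i : ℝ) + 1) / 2 - 25 ∧
    Summable (fun k => U e k ^ 2) := by
  intro i hi
  have g0 := Gr_neg chk0
  have g1 := Gr_pos chk1
  have g2 := Gr_neg chk2
  have g3 := Gr_pos chk3
  have g4 := Gr_neg chk4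
  push_cast at g0 g1 g2 g3 g4
  interval_cases i
  · obtain ⟨e, h1, h2, h3⟩ := exists_eig (a := 0 / 2 - 25) (b := 1 / 2 - 25) (σ := -1)
      (by norm_num) (by norm_num) (Or.inr rfl) (by norm_num : 104 ≤ 110) g0 (by rw [neg_neg]; exact g1)
    exact ⟨e, by push_cast; linarith, by push_cast; linarith, h3⟩
  · obtain ⟨e, h1, h2, h3⟩ := exists_eig (a := 1 / 2 - 25) (b := 2 / 2 - 25) (σ := 1)
      (by norm_num) (by norm_num) (Or.inl rfl) (by norm_num : 104 ≤ 110) g1 g2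
    exact ⟨e, by push_cast; linarith, by push_cast; linarith, h3⟩
  · obtain ⟨e, h1, h2, h3⟩ := exists_eig (a := 2 / 2 - 25) (b := 3 / 2 - 25) (σ := -1)
      (by norm_num) (by norm_num) (Or.inr rfl) (by norm_num : 104 ≤ 110) g2 (by rw [neg_neg]; exact g3)
    exact ⟨e, by push_cast; linarith, by push_cast; linarith, h3⟩
  · obtain ⟨e, h1, h2, h3⟩ := exists_eig (a := 3 / 2 - 25) (b := 4 / 2 - 25) (σ := 1)
      (by norm_num) (by norm_num) (Or.inl rfl) (by norm_num : 104 ≤ 110) g3 g4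
    exact ⟨e, by push_cast; linarith, by push_cast; linarith, h3⟩

end Pool.Agent.LibRabi30
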